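import Mathlib

namespace Pool.Agent.Results.MP_750254_mp.Cusp

open scoped InnerProductSpace ComplexConjugate
open Set

/-- `(V, o, par, a)` is the rooted labelled tree `T(M, j)`: `o` is the root, `par y` is the parent
of a vertex `y ≠ o`, every vertex descends from the root, the root has label `j`, and a vertex of
label `k` has exactly `M k l` children of label `l`. -/
structure IsTree {A V : Type} (M : Matrix A A ℕ) (j : A) (o : V) (par : V → V) (a : V → A) :
    Prop where
  reach : ∀ x, ∃ n, par^[n] x = o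
  root : a o = j
  count : ∀ x l, {y | y ≠ o ∧ par y = x ∧ a y = l}.encard = (M (a x) l : ℕ)

/-- Adjacency in the tree: one vertex is the parent of the other. -/
def Adj {V : Type} (o : V) (par : V → V) (x y : V) : Prop :=
  (y ≠ o ∧ par y = x) ∨ (x ≠ o ∧ par x = y)

/-- The Hilbert space `ℓ²(V, ν)` for the weight `ν ≡ 1`. -/
noncomputable def L2 (V : Type) : Type := lp (fun _ : V => ℂ) 2

noncomputable instance L2.nacg (V : Type) : NormedAddCommGroup (L2 V) :=
  (inferInstance : NormedAddCommGroup (lp (fun _ : V => ℂ) 2))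

noncomputable instance L2.ips (V : Type) : InnerProductSpace ℂ (L2 V) :=
  (inferInstance : InnerProductSpace ℂ (lp (fun _ : V => ℂ) 2))

instance L2.complete (V : Type) : CompleteSpace (L2 V) :=
  (inferInstance : CompleteSpace (lp (fun _ : V => ℂ) 2))

/-- The value `φ(x)` of `φ ∈ ℓ²(V)` at the vertex `x`. -/
noncomputable def L2.val {V : Type} (φ : L2 V) (x : V) : ℂ :=
  (show lp (fun _ : V => ℂ) 2 from φ) x

/-- `T` is a label invariant operator (weight `ν ≡ 1`) with data `t, w, m_{j,k} = m2 j k`,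
`m_j = m1 j`. -/
structure IsLabelInv {A V : Type} (M : Matrix A A ℕ) (o : V) (par : V → V) (a : V → A)
    (t : V → V → ℂ) (w : V → ℝ) (m2 : A → A → ℝ) (m1 : A → ℝ) (T : L2 V →L[ℂ] L2 V) : Prop where
  sa : IsSelfAdjoint T
  formula : ∀ (φ : L2 V) (x : V),
    (T φ).val x = (∑ᶠ (y : V) (_ : Adj o par x y), t x y * φ.val y) + (w x : ℂ) * φ.val x
  supp : ∀ x y, t x y ≠ 0 ↔ Adj o par x y
  herm : ∀ x y, t x y = conj (t y x)
  lab : ∀ x y, Adj o par x y →
    ‖t x y‖ ^ 2 * (M (a x) (a y) : ℝ) = m2 (a x) (a y) ∧ w x = m1 (a x)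

/-- The set `Σ₁`: real `E` for which the polynomial system has a solution in `ℍ^A`. -/
def Sigma1 {A : Type} [Fintype A] (m2 : A → A → ℝ) (m1 : A → ℝ) : Set ℝ :=
  {E | ∃ ξ : A → ℂ, (∀ j, 0 < (ξ j).im) ∧
    ∀ j, ξ j * ((E : ℂ) - m1 j + ∑ k, (m2 j k : ℂ) * ξ k) + 1 = 0}

/-- The standing assumptions on the substitution matrix `M`. -/
def Admissible {A : Type} [Fintype A] [DecidableEq A] (M : Matrix A A ℕ) : Prop :=
  (∀ j, 2 ≤ ∑ k, M j k) ∧ (∀ j, 1 ≤ M j j) ∧ ∃ n, 0 < n ∧ ∀ j k, 0 < (M ^ n) j k

/-- The spectrum of a bounded operator on `ℓ²(V)`. -/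
def spec {V : Type} (T : L2 V →L[ℂ] L2 V) : Set ℂ := spectrum ℂ T

/-- The number of connected components of a set. -/
noncomputable def ncomp {X : Type} [TopologicalSpace X] (s : Set X) : ℕ :=
  Nat.card (ConnectedComponents s)

/-! ### The binary tree -/

noncomputable abbrev H := lp (fun _ : List Bool => ℂ) 2

noncomputable def e (x : List Bool) : H := lp.single 2 x (1 : ℂ)

theorem inner_e (x : List Bool) (f : H) : ⟪e x, f⟫_ℂ = f x := by
  simp [e, lp.inner_single_left]

theorem e_apply (x y : List Bool) : e x y = if y = x then 1 else 0 := by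
  simp [e, lp.single_apply, Pi.single_apply]

theorem on (b : Bool) : Orthonormal ℂ (fun x => e (b :: x)) := by
  rw [orthonormal_iff_ite]
  intro x y
  rw [inner_e, e_apply]
  simp

noncomputable def S (b : Bool) : H →L[ℂ] H :=
  (on b).orthogonalFamily.linearIsometry.toContinuousLinearMap

theorem S_e (b : Bool) (x : List Bool) : S b (e x) = e (b :: x) := by
  simp [S, e]

theorem Sa (b : Bool) (f : H) (x : List Bool) : (star (S b)) f x = f (b :: x) := by
  rw [← inner_e, ContinuousLinearMap.star_eq_adjoint, ContinuousLinearMap.adjoint_inner_right,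
    S_e, inner_e]

theorem S_nil (b : Bool) (f : H) : S b f [] = 0 := by
  have h : (star (S b)) (e []) = 0 := by
    ext x; rw [Sa, e_apply]; simp
  rw [← inner_e, ← ContinuousLinearMap.adjoint_inner_left, ← ContinuousLinearMap.star_eq_adjoint, h,
    inner_zero_left]

theorem S_cons (b c : Bool) (f : H) (x : List Bool) :
    S b f (c :: x) = if c = b then f x else 0 := by
  have h : (star (S b)) (e (c :: x)) = if c = b then e x else 0 := by
    ext y; rw [Sa, e_apply]
    by_cases hc : c = b
    · simp [hc, e_apply]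
    · simp [hc, Ne.symm hc]
  rw [← inner_e, ← ContinuousLinearMap.adjoint_inner_left, ← ContinuousLinearMap.star_eq_adjoint, h]
  split_ifs
  · exact inner_e _ _
  · exact inner_zero_left _

noncomputable def P : H →L[ℂ] H := 1 - S false * star (S false) - S true * star (S true)

theorem P_nil (f : H) : P f [] = f [] := by
  simp [P, S_nil]

theorem P_cons (f : H) (c : Bool) (x : List Bool) : P f (c :: x) = 0 := by
  cases c <;> simp [P, S_cons, Sa]

theorem P_sa : star P = P := by simp [P]

theorem P_nonneg : 0 ≤ P := by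
  have : P = star P * P := by
    rw [P_sa]; ext f y
    cases y <;> simp [P_nil, P_cons]
  rw [this]; exact star_mul_self_nonneg _

theorem rs (c : ℝ) (A : H →L[ℂ] H) : c • A = (c : ℂ) • A := by
  rw [← algebraMap_smul ℂ c A]; rfl

theorem star_rs (c : ℝ) (A : H →L[ℂ] H) : star (c • A) = c • star A := by
  rw [rs, star_smul, rs]; simp

theorem rs_nonneg {c : ℝ} (hc : 0 ≤ c) {A : H →L[ℂ] H} (hA : 0 ≤ A) : 0 ≤ c • A := by
  rw [ContinuousLinearMap.nonneg_iff_isPositive] at hA ⊢
  rw [rs]
  exact hA.smul_of_nonneg (by exact_mod_cast hc)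

noncomputable def r : ℝ := √2
noncomputable def k : ℝ := √(3 / 2)
theorem r2 : r ^ 2 = 2 := Real.sq_sqrt (by norm_num)
theorem k2 : k ^ 2 = 3 / 2 := Real.sq_sqrt (by norm_num)
theorem r0 : 0 < r := Real.sqrt_pos.2 (by norm_num)
theorem k0 : 0 < k := Real.sqrt_pos.2 (by norm_num)
theorem rk : r < 2 * k := by nlinarith [r2, k2, r0, k0]

noncomputable def m1 (b : Bool) : ℝ := if b then -r else r

noncomputable def T (j : Bool) : H →L[ℂ] H :=
  S false + S true + star (S false) + star (S true) + r • (S false * star (S false))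
    - r • (S true * star (S true)) + m1 j • P

theorem T_sa (j : Bool) : IsSelfAdjoint (T j) := by
  show star (T j) = T j
  simp only [T, star_add, star_sub, star_rs, star_star, star_mul, P_sa]
  abel

theorem T_nil (j : Bool) (f : H) : T j f [] = f [false] + f [true] + m1 j * f [] := by
  simp [T, S_nil, Sa, P_nil]

theorem T_cons (j : Bool) (f : H) (c : Bool) (x : List Bool) :
    T j f (c :: x) = f x + f (false :: c :: x) + f (true :: c :: x) + m1 c * f (c :: x) := by
  have h0 : m1 false = r := rfl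
  have h1 : m1 true = -r := rfl
  cases c <;> simp [T, S_cons, Sa, P_cons, h0, h1] <;> ring

theorem sq_nonneg' (c : ℝ) (hc : 0 < c) (s : ℝ) (hs : s ^ 2 = 1) (b : Bool) :
    (0 : H →L[ℂ] H) ≤ c • 1 + s • S b + s • star (S b) + c⁻¹ • (S b * star (S b)) := by
  have h := star_mul_self_nonneg (c • (1 : H →L[ℂ] H) + s • star (S b))
  have h2 := rs_nonneg (inv_pos.2 hc).le h
  refine h2.trans_eq ?_
  simp only [star_add, star_rs, star_star, star_one, add_mul, mul_add,
    smul_mul_assoc, mul_smul_comm, one_mul, mul_one, smul_add, smul_smul]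
  have h1 : c⁻¹ * (c * c) = c := by field_simp
  have h3 : c⁻¹ * (c * s) = s := by field_simp
  have h4 : c⁻¹ * (s * c) = s := by field_simp
  have h5 : c⁻¹ * (s * s) = c⁻¹ := by rw [← sq, hs, mul_one]
  rw [h1, h3, h4, h5]
  abel

theorem bound (j : Bool) (s : ℝ) (hs : s ^ 2 = 1) : 0 ≤ (3 * k) • (1 : H →L[ℂ] H) + s • T j := by
  have hs' : s = 1 ∨ s = -1 := by
    have : (s - 1) * (s + 1) = 0 := by ring_nf; linarith
    rcases mul_eq_zero.1 this with h | h
    · left; linarith
    · right; linarith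
  have p0 : 0 < 2 * k + s * r := by rcases hs' with h | h <;> rw [h] <;> linarith [rk, r0]
  have p1 : 0 < 2 * k - s * r := by rcases hs' with h | h <;> rw [h] <;> linarith [rk, r0]
  have p2 : 0 ≤ 2 * k + s * m1 j := by
    cases j <;> simp only [m1] <;> simp <;> linarith
  have h0 := sq_nonneg' _ (inv_pos.2 p0) s hs false
  have h1 := sq_nonneg' _ (inv_pos.2 p1) s hs true
  have h2 := rs_nonneg p2 P_nonneg
  have hk : (2 * k + s * r)⁻¹ + (2 * k - s * r)⁻¹ = k := by
    field_simp
    have : s ^ 2 * r ^ 2 = 2 := by rw [hs, r2]; ring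
    nlinarith [k2]
  refine (add_nonneg (add_nonneg h0 h1) h2).trans_eq ?_
  have hk' : (2 * k - s * r)⁻¹ = k - (2 * k + s * r)⁻¹ := by linarith
  rw [inv_inv, inv_inv, hk']
  simp only [T, P]
  module

theorem spec_sub (j : Bool) : spectrum ℝ (T j) ⊆ Icc (-(3 * k)) (3 * k) := by
  intro E hE
  have key : ∀ s : ℝ, s ^ 2 = 1 → 0 ≤ 3 * k + s * E := by
    intro s hs
    refine spectrum_nonneg_of_nonneg (bound j s hs) ?_
    rw [spectrum.mem_iff] at hE ⊢
    intro hu
    apply hE
    have hs0 : s ≠ 0 := by rintro rfl; norm_num at hs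
    have : algebraMap ℝ (H →L[ℂ] H) E - T j = algebraMap ℝ _ s⁻¹ *
        (algebraMap ℝ (H →L[ℂ] H) (3 * k + s * E) - ((3 * k) • (1 : H →L[ℂ] H) + s • T j)) := by
      simp only [Algebra.algebraMap_eq_smul_one, smul_mul_assoc, one_mul, smul_sub, smul_add,
        smul_smul, add_smul, inv_mul_cancel_left₀ hs0, inv_mul_cancel₀ hs0, one_smul]
      abel
    rw [this]
    exact ((IsUnit.mk0 _ (inv_ne_zero hs0)).map _).mul hu
  constructor
  · have := key 1 (by norm_num); linarith
  · have := key (-1) (by norm_num); linarith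

noncomputable def m2 (_ _ : Bool) : ℝ := 1

theorem mem_sigma (E : ℝ) : E ∈ Sigma1 m2 m1 ↔ ∃ x y : ℂ, 0 < x.im ∧ 0 < y.im ∧
    x * (E - r + (x + y)) + 1 = 0 ∧ y * (E + r + (x + y)) + 1 = 0 := by
  constructor
  · rintro ⟨ξ, h1, h2⟩
    refine ⟨ξ false, ξ true, h1 _, h1 _, ?_, ?_⟩
    · have := h2 false
      simp [m1, m2] at this
      linear_combination this
    · have := h2 true
      simp [m1, m2] at this
      linear_combination this
  · rintro ⟨x, y, hx, hy, h1, h2⟩
    refine ⟨fun b => if b then y else x, fun b => by cases b <;> simpa, fun b => ?_⟩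
    cases b <;> simp [m1, m2]
    · linear_combination h1
    · linear_combination h2

theorem im_of {x u : ℂ} (h : x * u + 1 = 0) : x.im = ‖x‖ ^ 2 * u.im := by
  have h1 : conj x = -(x * conj x) * u := by linear_combination (conj x) * h
  rw [Complex.mul_conj, Complex.normSq_eq_norm_sq] at h1
  have := congrArg Complex.im h1
  simp [-Complex.ofReal_pow] at this
  linarith

theorem sigma_sub (j : Bool) : Sigma1 m2 m1 ⊆ spectrum ℝ (T j) := by
  intro E hE
  obtain ⟨x, y, hx, hy, h1, h2⟩ := (mem_sigma E).1 hE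
  have hn : ‖x‖ ^ 2 + ‖y‖ ^ 2 = 1 := by
    have a := im_of h1
    have b := im_of h2
    simp at a b
    have : (‖x‖ ^ 2 + ‖y‖ ^ 2 - 1) * (x.im + y.im) = 0 := by linarith
    rcases mul_eq_zero.1 this with h | h <;> linarith
  have hn' : conj x * x + conj y * y = 1 := by
    rw [Complex.conj_mul', Complex.conj_mul']; exact_mod_cast hn
  set V : H →L[ℂ] H := -(x • S false + y • S true) with hV
  have V0 : ∀ f, V f [] = 0 := fun f => by simp [hV, S_nil]
  have V1 : ∀ f z, V f (false :: z) = -x * f z := fun f z => by simp [hV, S_cons]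
  have V2 : ∀ f z, V f (true :: z) = -y * f z := fun f z => by simp [hV, S_cons]
  have iso : ∀ f, ‖V f‖ = ‖f‖ := by
    have : star V * V = 1 := by
      have hs : star V = -(conj x • star (S false) + conj y • star (S true)) := by simp [hV]
      ext f z
      rw [hs]
      simp [Sa, V1, V2]
      linear_combination (f z) * hn'
    intro f
    have h3 : ⟪V f, V f⟫_ℂ = ⟪f, f⟫_ℂ := by
      rw [← ContinuousLinearMap.adjoint_inner_right, ← ContinuousLinearMap.star_eq_adjoint,
        ← mul_apply_eq_comp, this, one_apply_eq_self]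
    rw [@norm_eq_sqrt_re_inner ℂ, @norm_eq_sqrt_re_inner ℂ _ _ _ _ f, h3]
  set W : H →L[ℂ] H := S false + S true + (x + y) • 1 with hW
  have key : ∀ f, (algebraMap ℝ (H →L[ℂ] H) E - T j) (V f) = W (f - V f) := by
    intro f
    have h0 : m1 false = r := rfl
    have h0' : m1 true = -r := rfl
    ext z
    rcases z with _ | ⟨c, z⟩
    · simp [Algebra.algebraMap_eq_smul_one, hW, T_nil, S_nil, V0, V1, V2]
      ring
    · cases c <;> simp [Algebra.algebraMap_eq_smul_one, hW, T_cons, S_cons, V1, V2, h0, h0']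
      · linear_combination -(f z) * h1
      · linear_combination -(f z) * h2
  rw [spectrum.mem_iff]
  intro hu
  obtain ⟨u, hu⟩ := hu
  let Y : ℕ → H := fun n => Nat.rec 0 (fun _ g => e [] + V g) n
  have Ys : ∀ n, Y (n + 1) = e [] + V (Y n) := fun n => rfl
  have e1 : ‖e []‖ = 1 := by simp [e]
  have nY : ∀ n, ‖Y n‖ ^ 2 = n := by
    intro n
    induction n with
    | zero => simp [Y]
    | succ n ih =>
      have ho : ⟪e [], V (Y n)⟫_ℂ = 0 := by rw [inner_e, V0]
      rw [Ys, @norm_add_sq ℂ, ho, e1, iso, ih]; simp; ring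
  have dY : ∀ n, ‖Y (n + 1) - Y n‖ = 1 := by
    intro n
    induction n with
    | zero => simp [Y, e1]
    | succ n ih => rw [Ys (n + 1), Ys n, add_sub_add_left_eq_sub, ← map_sub, iso, ← Ys, ih]
  have bd : ∀ n, ‖Y n‖ ≤ ‖(↑u⁻¹ : H →L[ℂ] H) * W‖ * 2 := by
    intro n
    have h3 : V (Y n) = ((↑u⁻¹ : H →L[ℂ] H) * W) (Y n - V (Y n)) := by
      rw [mul_apply_eq_comp, ← key, ← hu, ← mul_apply_eq_comp,
        Units.inv_mul, one_apply_eq_self]
    have h4 : Y n - V (Y n) = e [] - (Y (n + 1) - Y n) := by rw [Ys]; abel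
    rw [← iso, h3]
    refine (ContinuousLinearMap.le_opNorm _ _).trans (mul_le_mul_of_nonneg_left ?_ (norm_nonneg _))
    rw [h4]
    refine (norm_sub_le _ _).trans ?_
    rw [e1, dY]; norm_num
  obtain ⟨n, hn⟩ := exists_nat_gt ((‖(↑u⁻¹ : H →L[ℂ] H) * W‖ * 2) ^ 2)
  have := pow_le_pow_left₀ (norm_nonneg _) (bd n) 2
  rw [nY] at this
  linarith

theorem sigma_eq : Sigma1 m2 m1 = Ioo (-(3 * k)) 0 ∪ Ioo 0 (3 * k) := by
  have r2c : (r : ℂ) ^ 2 = 2 := by exact_mod_cast r2
  have k2c : (k : ℂ) ^ 2 = 3 / 2 := by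
    have := congrArg (fun t : ℝ => (t : ℂ)) k2
    simpa using this
  ext E
  constructor
  · intro hE
    have hI := spec_sub false (sigma_sub false hE)
    obtain ⟨x, y, hx, hy, h1, h2⟩ := (mem_sigma E).1 hE
    set u : ℂ := E + (x + y) with hu
    have hui : 0 < u.im := by simp [hu]; linarith
    have hc : u ^ 3 - E * u ^ 2 + 2 * E + 0 = 0 := by
      have a : (u - E) = x + y := by rw [hu]; ring
      have b1 : x * (u - r) + 1 = 0 := by rw [hu]; linear_combination h1
      have b2 : y * (u + r) + 1 = 0 := by rw [hu]; linear_combination h2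
      linear_combination (u ^ 2 - r ^ 2) * a + (u + r) * b1 + (u - r) * b2 + (u - E) * r2c
    have nz : ∀ t : ℝ, u - t ≠ 0 := fun t h => by
      have := congrArg Complex.im h
      simp at this; linarith
    have n0 : E ≠ 0 := by
      rintro rfl
      apply pow_ne_zero 3 (nz 0)
      simpa using hc
    have n1 : E ≠ 3 * k := by
      rintro rfl
      apply mul_ne_zero (pow_ne_zero 2 (nz (2 * k))) (nz (-k))
      push_cast at hc ⊢
      linear_combination hc + 4 * k * k2c
    have n2 : E ≠ -(3 * k) := by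
      rintro rfl
      apply mul_ne_zero (pow_ne_zero 2 (nz (-(2 * k)))) (nz k)
      push_cast at hc ⊢
      linear_combination hc - 4 * k * k2c
    rcases lt_or_gt_of_ne n0 with h | h
    · exact Or.inl ⟨lt_of_le_of_ne hI.1 (Ne.symm n2), h⟩
    · exact Or.inr ⟨h, lt_of_le_of_ne hI.2 n1⟩
  · intro hE
    have hE1 : -(3 * k) < E ∧ E < 3 * k ∧ E ≠ 0 := by
      rcases hE with h | h
      · exact ⟨h.1, by linarith [h.2, k0], h.2.ne⟩
      · exact ⟨by linarith [h.1, k0], h.2, h.1.ne'⟩
    obtain ⟨a1, a2, a3⟩ := hE1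
    have hc : ContinuousOn (fun p : ℝ => p ^ 3 - E * p ^ 2 + 2 * E) (Icc (-k) k) := by fun_prop
    have hk3 : k ^ 3 = 3 / 2 * k := by rw [← k2]; ring
    obtain ⟨p, hp, hp0⟩ := intermediate_value_Ioo (by linarith [k0]) hc
      (show (0 : ℝ) ∈ Ioo _ _ from ⟨by
        have : (-k) ^ 3 - E * (-k) ^ 2 + 2 * E = (E - 3 * k) / 2 := by
          linear_combination -hk3 - E * k2
        simp only [this]; linarith, by
        have : k ^ 3 - E * k ^ 2 + 2 * E = (E + 3 * k) / 2 := by
          linear_combination hk3 - E * k2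
        simp only [this]; linarith⟩)
    simp only at hp0
    have p2 : p ^ 2 < 3 / 2 := by rw [← k2]; exact sq_lt_sq' hp.1 hp.2
    have p0 : p ≠ 0 := by rintro rfl; apply a3; linarith
    have pp : 0 < p ^ 2 := by positivity
    have hD : 0 < (p - E) * (3 * p + E) := by
      have h1 : (p - E) * (p ^ 2 - 2) = -2 * p := by linarith
      have h2 : (3 * p + E) * (p ^ 2 - 2) = 4 * p ^ 3 - 6 * p := by linarith
      have h3 : (p - E) * (3 * p + E) * (p ^ 2 - 2) ^ 2 = 4 * p ^ 2 * (3 - 2 * p ^ 2) := by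
        calc _ = ((p - E) * (p ^ 2 - 2)) * ((3 * p + E) * (p ^ 2 - 2)) := by ring
          _ = _ := by rw [h1, h2]; ring
      have h4 : 0 < 4 * p ^ 2 * (3 - 2 * p ^ 2) := mul_pos (by linarith) (by linarith)
      rw [← h3] at h4
      by_contra hneg
      exact absurd h4 (not_lt.2 (mul_nonpos_of_nonpos_of_nonneg (not_lt.1 hneg) (sq_nonneg _)))
    set q := √((p - E) * (3 * p + E)) with hq
    have q0 : 0 < q := Real.sqrt_pos.2 hD
    have q2 : q ^ 2 = (p - E) * (3 * p + E) := Real.sq_sqrt hD.le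
    have q2c : (q : ℂ) ^ 2 = (p - E) * (3 * p + E) := by exact_mod_cast q2
    have hpc : (p : ℂ) ^ 3 - E * p ^ 2 + 2 * E = 0 := by exact_mod_cast hp0
    set u : ℂ := ((E - p) + q * Complex.I) / 2 with hu
    have hui : 0 < u.im := by simp [hu]; linarith
    have hq2 : u ^ 2 + (p - E) * u + p * (p - E) = 0 := by
      rw [hu]
      linear_combination (q : ℂ) ^ 2 / 4 * Complex.I_sq - q2c / 4
    have hcu : u ^ 3 - E * u ^ 2 + 2 * E = 0 := by linear_combination (u - p) * hq2 + hpc
    have nz : ∀ t : ℝ, (t : ℂ) - u ≠ 0 := fun t h => by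
      have := congrArg Complex.im h
      simp at this; linarith
    have ip : ∀ t : ℝ, 0 < ((t : ℂ) - u)⁻¹.im := fun t => by
      rw [Complex.inv_im]
      simp only [Complex.sub_im, Complex.ofReal_im, zero_sub, neg_neg]
      exact div_pos hui (Complex.normSq_pos.2 (nz t))
    have n1 := nz r
    have n2 := nz (-r)
    have hs : ((r : ℂ) - u)⁻¹ + (((-r : ℝ) : ℂ) - u)⁻¹ = u - E := by
      field_simp
      push_cast
      linear_combination -hcu + (u - E) * r2c
    refine (mem_sigma E).2 ⟨_, _, ip r, ip (-r), ?_, ?_⟩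
    · rw [hs]; field_simp; ring
    · rw [hs]; field_simp; push_cast; ring

theorem spec_eq (j : Bool) : spectrum ℝ (T j) = Icc (-(3 * k)) (3 * k) := by
  refine Subset.antisymm (spec_sub j) ?_
  have hc : closure (Sigma1 m2 m1) ⊆ spectrum ℝ (T j) :=
    closure_minimal (sigma_sub j) (spectrum.isClosed (𝕜 := ℝ) (T j))
  rw [sigma_eq, closure_union, closure_Ioo (by linarith [k0]), closure_Ioo (by linarith [k0]),
    Icc_union_Icc_eq_Icc (by linarith [k0]) (by linarith [k0])] at hc
  exact hc

theorem card_two (b : ℝ) (hb : 0 < b) :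
    Nat.card (ConnectedComponents ↥(Ioo (-b) 0 ∪ Ioo 0 b)) = 2 := by
  let X := ↥(Ioo (-b) 0 ∪ Ioo 0 b)
  have ne0 : ∀ x : X, x.1 ≠ 0 := fun x => by
    rcases x.2 with h | h
    · exact h.2.ne
    · exact h.1.ne'
  let f : X → Bool := fun x => decide (0 < x.1)
  have hf : Continuous f := by
    refine IsLocallyConstant.continuous ((IsLocallyConstant.iff_isOpen_fiber).2 fun c => ?_)
    cases c
    · have : f ⁻¹' {false} = {x : X | x.1 < 0} := by
        ext x; simp [f, lt_iff_le_and_ne, ne0 x, (ne0 x).symm]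
      rw [this]; exact isOpen_lt continuous_subtype_val continuous_const
    · have : f ⁻¹' {true} = {x : X | 0 < x.1} := by ext x; simp [f]
      rw [this]; exact isOpen_lt continuous_const continuous_subtype_val
  have same : ∀ (I : Set ℝ), IsPreconnected I → I ⊆ Ioo (-b) 0 ∪ Ioo 0 b → ∀ x y : X,
      x.1 ∈ I → y.1 ∈ I → (x : ConnectedComponents X) = y := by
    intro I hI hs x y hx hy
    have h1 : IsPreconnected (Subtype.val ⁻¹' I : Set X) := by
      rw [← Topology.IsInducing.subtypeVal.isPreconnected_image, Subtype.image_preimage_coe,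
        inter_eq_right.2 hs]
      exact hI
    rw [ConnectedComponents.coe_eq_coe']
    exact h1.subset_connectedComponent hy hx
  have hb' : Function.Bijective hf.connectedComponentsLift := by
    constructor
    · intro x y h
      obtain ⟨x, rfl⟩ := ConnectedComponents.surjective_coe x
      obtain ⟨y, rfl⟩ := ConnectedComponents.surjective_coe y
      simp only [Continuous.connectedComponentsLift_apply_coe, f, decide_eq_decide] at h
      rcases x.2 with hx | hx <;> rcases y.2 with hy | hy
      · exact same _ isPreconnected_Ioo subset_union_left x y hx hy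
      · exact absurd (h.2 hy.1) (not_lt.2 hx.2.le)
      · exact absurd (h.1 hx.1) (not_lt.2 hy.2.le)
      · exact same _ isPreconnected_Ioo subset_union_right x y hx hy
    · intro c
      cases c
      · refine ⟨((⟨-b / 2, Or.inl ⟨by linarith, by linarith⟩⟩ : X) : ConnectedComponents X), ?_⟩
        simp only [Continuous.connectedComponentsLift_apply_coe, f, decide_eq_false_iff_not]
        linarith
      · refine ⟨((⟨b / 2, Or.inr ⟨by linarith, by linarith⟩⟩ : X) : ConnectedComponents X), ?_⟩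
        simp only [Continuous.connectedComponentsLift_apply_coe, f, decide_eq_true_eq]
        linarith
  rw [Nat.card_congr (Equiv.ofBijective _ hb')]
  simp

def M : Matrix Bool Bool ℕ := fun _ _ => 1

def lab (j : Bool) : List Bool → Bool
  | [] => j
  | b :: _ => b

theorem adj_nil (y : List Bool) : Adj [] List.tail [] y ↔ y ∈ ({[false], [true]} : Finset _) := by
  rcases y with _ | ⟨c, y⟩
  · simp [Adj]
  · cases c <;> simp [Adj]

theorem adj_cons (c : Bool) (x y : List Bool) : Adj [] List.tail (c :: x) y ↔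
    y ∈ ({x, false :: c :: x, true :: c :: x} : Finset _) := by
  rcases y with _ | ⟨d, y⟩
  · simp [Adj, eq_comm]
  · cases d <;> simp [Adj, eq_comm, or_comm]

open Classical in
noncomputable def tt (x y : List Bool) : ℂ := if Adj [] List.tail x y then 1 else 0

theorem isTree (j : Bool) : IsTree M j [] List.tail (lab j) where
  reach x := by
    induction x with
    | nil => exact ⟨0, rfl⟩
    | cons c x ih => obtain ⟨n, hn⟩ := ih; exact ⟨n + 1, hn⟩
  root := rfl
  count x l := by
    have : {y | y ≠ [] ∧ y.tail = x ∧ lab j y = l} = {l :: x} := by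
      ext y
      rcases y with _ | ⟨c, y⟩
      · simp
      · simp [lab, and_comm]
    rw [this]; simp [M]

theorem isInv (j : Bool) :
    IsLabelInv M [] List.tail (lab j) tt (fun x => m1 (lab j x)) m2 m1 (T j) where
  sa := T_sa j
  formula := by
    intro (φ : H) x
    show T j φ x = (∑ᶠ (y : List Bool) (_ : Adj [] List.tail x y), tt x y * φ y) +
      (m1 (lab j x) : ℂ) * φ x
    have h : ∀ s : Finset (List Bool), (∀ y, Adj [] List.tail x y ↔ y ∈ s) →
        (∑ᶠ (y : List Bool) (_ : Adj [] List.tail x y), tt x y * φ y) = ∑ y ∈ s, φ y := by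
      intro s hs
      rw [finsum_cond_eq_sum_of_cond_iff _ (fun {y} _ => hs y)]
      exact Finset.sum_congr rfl fun y hy => by simp [tt, (hs y).2 hy]
    rcases x with _ | ⟨c, x⟩
    · rw [h _ adj_nil, T_nil]; simp [lab]
    · have n1 : ∀ d : Bool, x ≠ d :: c :: x := fun d h => by
        have := congrArg List.length h
        simp at this; omega
      rw [h _ (adj_cons c x), T_cons]; simp [lab, n1, add_assoc]
  supp x y := by simp [tt]
  herm x y := by
    have : Adj [] List.tail x y ↔ Adj [] List.tail y x := by simp [Adj, or_comm]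
    by_cases h : Adj [] List.tail x y
    · simp [tt, h, this.1 h]
    · simp [tt, h, mt this.2 h]
  lab x y h := by simp [tt, h, M, m2]

theorem result : ∃ (A : Type) (_ : Fintype A) (_ : DecidableEq A) (M : Matrix A A ℕ)
    (m2 : A → A → ℝ) (m1 : A → ℝ),
    Admissible M ∧ Nonempty A ∧ ∃ β : ℝ, 0 < β ∧ β ^ 2 = 27 / 2 ∧ Sigma1 m2 m1 = Ioo (-β) 0 ∪ Ioo 0 β ∧
    ncomp (Sigma1 m2 m1) = 2 ∧
    ∀ j : A, ∃ (V : Type) (o : V) (par : V → V) (a : V → A) (t : V → V → ℂ) (w : V → ℝ)
      (T : L2 V →L[ℂ] L2 V), IsTree M j o par a ∧ IsLabelInv M o par a t w m2 m1 T ∧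
      spec T = (fun x : ℝ => (x : ℂ)) '' Icc (-β) β ∧ ncomp (spec T) = 1 := by
  refine ⟨Bool, inferInstance, inferInstance, M, m2, m1, ⟨fun j => by simp [M], fun j => le_rfl,
    1, one_pos, fun j k => by simp [M]⟩, inferInstance, 3 * k, by linarith [k0],
    by linarith [k2, mul_pow 3 k 2], sigma_eq, ?_, fun j => ?_⟩
  · rw [sigma_eq]; exact card_two _ (by linarith [k0])
  · have hs : spectrum ℂ (T j) = (fun x : ℝ => (x : ℂ)) '' Icc (-(3 * k)) (3 * k) := by
      rw [← spec_eq j]
      exact (T_sa j).spectrumRestricts.algebraMap_image.symm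
    refine ⟨_, _, _, _, _, _, T j, isTree j, isInv j, hs, ?_⟩
    have hc : IsConnected (spectrum ℂ (T j)) := by
      rw [hs]
      exact (isConnected_Icc (by linarith [k0])).image _ Complex.continuous_ofReal.continuousOn
    have := isConnected_iff_connectedSpace.1 hc
    show Nat.card (ConnectedComponents (spectrum ℂ (T j))) = 1
    exact Nat.card_eq_one_iff_unique.2 ⟨inferInstance, inferInstance⟩

end Pool.Agent.Results.MP_750254_mp.Cusp
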